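import Pool.Agent.R869.WTor
import Pool.Agent.R869.SLoc
import Pool.Agent.R869.WEllL

/-!
MP_45e720_ag, Q1: entire curves and maps from complex tori for the projective varieties given by
linear combinations of the powers `x_j ^ d` and of `s` further monomials of degree `d`, in given sets
of variables, for almost all choices of these monomials: the Zariski closure of the union of the entire
curves is the Zariski closure of the union of the images of the complex tori; for the hypersurfaces
among them (with arbitrary coefficients), a necessary and sufficient combinatorial criterion for the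
existence of nonconstant maps from complex tori, and of entire curves with given vanishing
coordinates; forms with few monomials whose exponents are far apart in the sense of lattice widths.

`TorusMap F n b g`, `EllMap F w1 w2 g`, `SpTorus F`, `SpEll F` (`Pool/Agent/R869/WTor.lean`):
nonconstant holomorphic maps from complex tori, and from one-dimensional complex tori, to
`X = {F = 0}`; the Zariski closures of the unions of their images (as cones). `TorusRigid F`,
`EllipticRigid F` (`Pool/Agent/TH182/TC/Core.lean`, starting repository): there are no such maps.
`SpH ∅ F` (`Pool/Agent/H159R3/GGL/LogSpecial.lean`), `SpGm F` (`Pool/Agent/W602/GT/SpGmDefs.lean`):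
the Zariski closures of the unions of the entire curves in `X` and of the images of the nonconstant
morphisms from the multiplicative group to `X`. `Brody F` (`Pool/Agent/Y190/PH/Tor.lean`): all entire
curves in `X` are constant. `NoRationalCurves F` (`Pool/Agent/R869/WLang.lean`), `OrbitsConstant F`
(`Pool/Agent/W603/CX/Groupless.lean`): all morphisms from the projective line to `X` are constant; all
maps `t ↦ (x_0 t ^ b_0 : … : x_n t ^ b_n)` from the multiplicative group to `X` are constant.
`WideT U T N` (`Pool/Agent/R869/WHgt.lean`): whenever at most `n` pairs of elements of the sets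
`T e`, in the variables of a set `I`, are such that the sum of the segments between them has positive
width in all directions, this sum has width at least `N` in all directions that are minimal on `U`.
`TuplesIn I d`, `AlmostAllIn I P`, `Spread I m J` (`SDefs.lean`): the tuples of exponent vectors of
degree `d`, the `i`-th one of a monomial in the variables from `I i`; the proportion of the tuples
with the property `P` tends to `1` for `d → ∞`; for all colourings of the variables which are not
constant on `J`, `∑ min (m + 1) (a v + b v) ≤ m (N + 2) + 1`, the sum over the colours `v` on `J`,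
where `a v` and `b v` are the numbers of the variables from `J` and of the sets `I i ⊆ J` with the
colour `v`, and `N` is the number of the sets `I i ⊆ J` with different colours. `withPowers`
(`WDensDefs.lean`): the set of the exponent vectors `a i` and of those of the `x_j ^ d`.
`Loose F J` (`USharpDefs.lean`): `F` does not have exactly one monomial in the variables from `J`, and
there is a colouring of the variables with `V ≥ 2` colours on `J` such that `N + D + 4 ≤ 2 V`, where
`N` is the number of the monomials of `F` in the variables from `J` whose variables have different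
colours, and `D` is the number of the colours on `J` for which exactly one monomial of `F` in the
variables from `J` has all its variables of this colour.
`GenCoeffs F T` (`WGen.lean`): the coefficient vectors of the `m` forms `F e` at any `m` elements of
`T` are linearly independent (all coefficients are nonzero, if `m = 1`).
-/

set_option autoImplicit false

namespace Pool.Agent.Results.MP_45e720_ag.AlmostAllMonomials

open MvPolynomial Pool.Agent.W602.GT Pool.Agent.R869.Wd Pool.Agent.H159R3.GGLLog
open Pool.Agent.W603.CX (OrbitsConstant)
open Pool.Agent.Y190.PH (Brody)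
open Pool.Agent.TH182.TC (TorusRigid EllipticRigid)

/-- The Zariski closures of the union of the entire curves in `X = {F = 0}`, of the union of the
images of the nonconstant holomorphic maps from complex tori to `X`, from one-dimensional complex
tori, and from the multiplicative group (algebraic) coincide. The following are equivalent: all
holomorphic maps from complex tori to `X` are constant; all holomorphic maps from one-dimensional
complex tori are constant; `X` is hyperbolic; `X` contains no rational curves; all maps
`t ↦ (x_j t ^ b_j)` from the multiplicative group to `X` are constant. -/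
def ToriSuffice {n : ℕ} {ι : Type} (F : ι → MvPolynomial (Fin (n + 1)) ℂ) : Prop :=
  (SpTorus F = SpH ∅ F ∧ SpEll F = SpH ∅ F ∧ SpGm F = SpH ∅ F) ∧
  [TorusRigid F, EllipticRigid F, Brody F, NoRationalCurves F, OrbitsConstant F].TFAE

theorem toriSuffice_of {n s N A : ℕ} {ι : Type} {F : ι → MvPolynomial (Fin (n + 1)) ℂ}
    (hC : Sys ∅ F s N) (hA : HgtBound ∅ F A) : ToriSuffice F := by
  obtain ⟨h1, h2, h3⟩ := torus_eq hC
  exact ⟨⟨h2, h1, h3⟩, torus_tfae hC hA⟩

/-- For the hypersurface `X = {F = 0}`: all holomorphic maps from complex tori to `X` are constant if
and only if no set of variables is loose for `F`; for all sets `J` of variables there is an entire curve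
in `X` on which exactly the coordinates outside `J` vanish identically if and only if `J` is loose for
`F`; the entire curves, and the images of the complex tori, lie in the union of the coordinate subspaces
given by the sets which are loose for `F`. -/
def LooseCriterion {n : ℕ} (F : MvPolynomial (Fin (n + 1)) ℂ) : Prop :=
  (TorusRigid (fun _ : Fin 1 => F) ↔ ∀ J, ¬ Loose F J) ∧
  (∀ J : Finset (Fin (n + 1)), Loose F J ↔
    ∃ f, EntireCurve ∅ (fun _ : Fin 1 => F) f ∧ ∀ j, (∃ z, f z j ≠ 0) ↔ j ∈ J) ∧
  ∀ x ∈ SpH ∅ (fun _ : Fin 1 => F), ∃ J : Finset (Fin (n + 1)), Loose F J ∧ ∀ j, x j ≠ 0 → j ∈ J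

/-- (1) For all `n`, `s`, all nonempty sets of variables `I 1, …, I s` and almost all tuples of
monomials of degree `d` in `n + 1` variables, the `i`-th one in the variables from `I i`,
`ToriSuffice F` for all projective varieties `X` given by `m` linear combinations `F e` of these
monomials and of the `x_j ^ d`, and `LooseCriterion F` for the hypersurfaces given by such linear
combinations `F` (with arbitrary coefficients). If any `m` of the coefficient vectors are linearly
independent, all entire curves in `X` lie in the union of the coordinate subspaces given by the sets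
`J` of variables on which the `I i` are not well spread with respect to `m`.

(2) The `I i` are well spread, with respect to `m`, on all sets of variables (and `X` is hyperbolic) if
all sets of `2 m + 2` variables are among the `I i`, `m ≥ 1`, and all `I i` have at least `m + 1`
elements. -/
theorem result :
    (∀ (n s : ℕ) (I : Fin s → Finset (Fin (n + 1))), (∀ i, (I i).Nonempty) →
      AlmostAllIn I fun d a => (∀ (m : ℕ) (F : Fin m → MvPolynomial (Fin (n + 1)) ℂ),
        (∀ e, (F e).support ⊆ withPowers d a) → ToriSuffice F ∧
        (GenCoeffs F (withPowers d a) → ∀ x ∈ SpH ∅ F, ∃ J : Finset (Fin (n + 1)),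
          ¬ Spread I m J ∧ ∀ j, x j ≠ 0 → j ∈ J)) ∧
        ∀ F : MvPolynomial (Fin (n + 1)) ℂ, F.support ⊆ withPowers d a → LooseCriterion F) ∧
    ∀ (n m s : ℕ) (I : Fin s → Finset (Fin (n + 1))), 1 ≤ m → (∀ i, m + 1 ≤ (I i).card) →
      (∀ A : Finset (Fin (n + 1)), A.card = 2 * m + 2 → ∃ i, I i = A) → ∀ J, Spread I m J := by
  classical
  refine ⟨?_, fun n m s I hm hI hall => spread_all hm hI hall⟩
  intro n s I hI
  refine almost_typI hI fun d a hty => ?_
  obtain ⟨A, hA⟩ := hty.bound
  obtain ⟨s', N, hg⟩ := hty.good
  have hts : ∀ (m : ℕ) (F : Fin m → MvPolynomial (Fin (n + 1)) ℂ),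
      (∀ e, (F e).support ⊆ withPowers d a) → ToriSuffice F := fun m F hFT =>
    toriSuffice_of (hg.sys hFT ∅) (hA ℂ m F ∅ hFT).1
  refine ⟨fun m F hFT => ⟨hts m F hFT, fun hgc x hx => ?_⟩, fun F hF => ⟨?_, fun J => ?_,
    fun x hx => ?_⟩⟩
  · obtain ⟨J, h1, -, h2⟩ := hty.special hFT hgc hx
    exact ⟨J, h1, h2⟩
  · have h1 : TorusRigid (fun _ : Fin 1 => F) ↔ Brody (fun _ : Fin 1 => F) :=
      (hts 1 _ fun _ => hF).2.out 0 2
    rw [h1, ← Pool.Agent.R869.Wd.brody_iff, hty.spH_empty hF]
    exact ⟨fun h J => h J fun j hj => absurd hj (Set.notMem_empty j), fun h J _ => h J⟩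
  · exact (hty.crit hF J).out 0 3
  · obtain ⟨J, h1, -, h2⟩ := hty.special1 hF hx
    exact ⟨J, h1, h2⟩

/-- **Wide systems.** Let `T e` be finitely many sets of at most `s` exponent vectors which are
`N`-wide with `N > n s (s - 1) (s - 2) / 2`. Then `ToriSuffice F` for all forms `F e` with exponents in
`T e`. -/
theorem wide_systems : ∀ (n s N : ℕ) (ι : Type) [Finite ι]
      (T : ι → Finset (Fin (n + 1) →₀ ℕ)), 1 ≤ s →
      (∀ e, (T e).card ≤ s) → WideT ∅ T N → n * (s * ((s - 1) * (s - 2) / 2)) < N →
      ∀ F : ι → MvPolynomial (Fin (n + 1)) ℂ, (∀ e, (F e).support ⊆ T e) →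
        (∀ e, IsForm (F e)) → ToriSuffice F := by
  intro n s N ι _ T hs hT hW hN F hFT hF
  have hN' : s * (n * Pool.Agent.R869.tri (s - 1)) < N := by
    rw [tri_choose]
    refine lt_of_le_of_lt (le_of_eq ?_) hN
    ring
  obtain ⟨A, hA⟩ := unif ∅ T hs hT hW (cstC_lt hs hN')
  exact toriSuffice_of ⟨hF, hs, fun e => (Finset.card_le_card (hFT e)).trans (hT e),
    wide_of_wideT hW hFT, hN'⟩ (hA ℂ F hFT hF)

end Pool.Agent.Results.MP_45e720_ag.AlmostAllMonomials
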