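import Pool.Agent.R871.SG.BubH

/-!
MP_45e720_ag, Q1: entire curves in projective manifolds, and in closed subsets of the projective space,
which contain no rational curves of small degree.
-/

set_option autoImplicit false

namespace Pool.Agent.Results.MP_45e720_ag.IsolatedTerms

open Pool.Agent.R871.SG Filter Topology

/-- Let `X` be a closed subset of `ℙⁿ` (given by its cone) which contains no nonconstant rational curve
of degree at most `d`.

(1) There is `δ > 0` such that for every holomorphic map `f` from the plane to `X`, given by homogeneous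
coordinates without common zeros, the indices of different `δ`-isolated terms of the Taylor series of
`f` differ by more than `d`.

(2) There is `R > 1` such that for every such map `f` whose homogeneous coordinates are not all
polynomials the central index of the Taylor series increases by more than `d` between the radii `r` and
`R r`, for arbitrarily large `r`.

(3) If `d ≥ 1`, there is no holomorphic map from the plane to `X` with homogeneous coordinates without
common zeros `∑ a_m z^m`, all `a_m` nonzero vectors, such that `‖a_m‖ ‖a_{m+2}‖ / ‖a_{m+1}‖²` tends to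
zero. -/
theorem result {n : ℕ} {X : Set (Fin (n + 1) → ℂ)} (hX : IsClosed X)
    (hs : ∀ (a : ℂ), ∀ x ∈ X, a • x ∈ X) {d : ℕ} (h : RatFree X d) :
    (∃ δ : ℝ, 0 < δ ∧ ∀ f, HolIn X f → ∀ (w : ℂ) (j k : ℕ) (r ρ : ℝ), 0 < r → r < ρ →
      Isolated (coef f w) δ j r → Isolated (coef f w) δ k ρ → k = j ∨ j + d < k) ∧
    (∃ R : ℝ, 1 < R ∧ ∀ f, HolIn X f → (¬ ∃ P : Fin (n + 1) → Polynomial ℂ, f = pv P) →
      ∀ (w : ℂ) (r₀ : ℝ), ∃ r > r₀,
        centralIndex (coef f w) r + d < centralIndex (coef f w) (R * r)) ∧
    (1 ≤ d → ∀ f, HolIn X f → ∀ w : ℂ, (∀ m, coef f w m ≠ 0) →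
      ¬ Tendsto (fun m => ‖coef f w m‖ * ‖coef f w (m + 2)‖ / ‖coef f w (m + 1)‖ ^ 2) atTop (𝓝 0)) := by
  obtain ⟨h1, h2⟩ := terms_apart hX hs h
  refine ⟨h1, h2, fun hd f hf w ha ht => ?_⟩
  obtain ⟨δ, hδ, h1⟩ := h1
  obtain ⟨j, r, ρ, hr, hrρ, hj, hk⟩ := isolated_of_ratio ha ht hδ
  rcases h1 f hf w j (j + 1) r ρ hr hrρ hj hk with h3 | h3 <;> omega

end Pool.Agent.Results.MP_45e720_ag.IsolatedTerms
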