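import Mathlib
import Pool.Agent.TH143.EL.Exa
import Pool.Agent.Results.MP_45e720_ag.LinearCurvesAndTori
import Pool.Agent.Results.MP_b9fedf_ag.SumsOfPowers
import Pool.Agent.Results.MP_6f117a_ag.DegreesOfPowerSums

set_option autoImplicit false

/-!
# Maps from complex tori and curves whose coordinates are sums of few high powers

MP_45e720_ag, Q1. Let `X` be an arbitrary projective variety such that all nonconstant holomorphic
maps from one-dimensional complex tori to `X` have their image in the closed set `Z` (for `Z` empty: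
there are no such maps). Then the conclusion of the problem holds, modulo `Z`, for the holomorphic
curves in `X` whose homogeneous coordinates are, near the punctures, sums of `r` terms `ρ e h ^ M`
with `ρ` meromorphic at the puncture, `e` without zeros, `h` arbitrary and `M` large: entire curves
are constant, maps from the punctured disc extend, and the degrees of the algebraic curves of this
kind are bounded in terms of their genus.
-/

namespace Pool.Agent.Results.MP_45e720_ag.PowerSumTori

open FF MvPolynomial Metric Set Filter Topology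
open Pool.Agent.W603.LV Pool.Agent.W603.PV
open Pool.Agent.TH143 Pool.Agent.W603.BP Pool.Agent.R849.HP
open Pool.Agent.TH143.EL (TorusMapsIn Rep HolMap InV)
open scoped LinearAlgebra.Projectivization

/-- A nonconstant holomorphic map from the line to the projective variety `F = 0`, such that near
infinity the homogeneous coordinates are sums of `r` terms `ρ e h ^ M` (`ρ` meromorphic at
infinity, `e` without zeros, `h` arbitrary). -/
structure PowerLine {N : ℕ} {ι : Type} (F : ι → MvPolynomial (Fin (N + 1)) ℂ) (r M : ℕ)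
    (f : ℂ → Fin (N + 1) → ℂ) : Prop where
  an : ∀ j, Differentiable ℂ (fun z => f z j)
  ne : ∀ z : ℂ, f z ≠ 0
  eqs : ∀ z : ℂ, ∀ i, eval (f z) (F i) = 0
  power : PowerSum r M (fun w => f w⁻¹)
  nonconst : ∃ z w j k, f z j * f w k ≠ f z k * f w j

/-- A holomorphic map from the punctured unit disc to the projective variety `F = 0`, such that near
the origin the homogeneous coordinates are sums of `r` terms `ρ e h ^ M` (`ρ` meromorphic at the
origin, `e` without zeros, `h` arbitrary). -/
structure PowerDisc {N : ℕ} {ι : Type} (F : ι → MvPolynomial (Fin (N + 1)) ℂ) (r M : ℕ)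
    (f : ℂ → Fin (N + 1) → ℂ) : Prop where
  an : ∀ j, AnalyticOnNhd ℂ (fun w => f w j) {w : ℂ | w ≠ 0 ∧ ‖w‖ < 1}
  ne : ∀ w : ℂ, w ≠ 0 → ‖w‖ < 1 → f w ≠ 0
  eqs : ∀ w : ℂ, w ≠ 0 → ‖w‖ < 1 → ∀ i, eval (f w) (F i) = 0
  power : PowerSum r M f

/-- `K` is the function field of a smooth projective curve, `S` a finite set of its points and `x` a
map from the curve to `F = 0`, given by a nonzero vector of rational functions, the coordinates
being sums of `r` terms `u_j ρ_(j,a)`, where the orders of the `u_j` outside `S` are multiples of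
`M`. -/
structure PowerMap {N : ℕ} {ι : Type} (F : ι → MvPolynomial (Fin (N + 1)) ℂ) {K : Type} [Field K]
    [Algebra ℂ K] {r : ℕ} (M : ℕ) (S : Finset (Place ℂ K)) (u : Fin r → K)
    (ρ : Fin r → Fin (N + 1) → K) (x : Fin (N + 1) → K) : Prop where
  ne : ∀ j, u j ≠ 0
  power : ∀ j, ∀ P ∉ S, (M : ℤ) ∣ P.ord (u j)
  coord : ∀ a, x a = ∑ j, u j * ρ j a
  nonzero : x ≠ 0
  mem : ∀ i, aeval x (F i) = 0

variable {N : ℕ} {ι : Type}

theorem eval_rep {p : ℙ ℂ (Fin (N + 1) → ℂ)} {v : Fin (N + 1) → ℂ} (hp : Rep p v)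
    {G : MvPolynomial (Fin (N + 1)) ℂ} {e : ℕ} (hG : G.IsHomogeneous e) :
    eval p.rep G = 0 ↔ eval v G = 0 := by
  obtain ⟨hv, rfl⟩ := hp
  obtain ⟨a, ha⟩ := Projectivization.exists_smul_eq_mk_rep ℂ v hv
  rw [← ha]
  have h0 : (a • v : Fin (N + 1) → ℂ) = fun j => (a : ℂ) * v j := rfl
  have h1 : eval (a • v) G = (a : ℂ) ^ e * eval v G := by
    rw [h0]
    exact Pool.Agent.H159R3.Exp.eval_smul_homog hG _ _
  rw [h1]
  constructor
  · intro h
    exact (mul_eq_zero.mp h).resolve_left (pow_ne_zero _ a.ne_zero)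
  · intro h
    rw [h, mul_zero]

/-- if the maps from one-dimensional tori lie in `Z` then so do the rational curves -/
theorem gm_in_of_tori (F : ι → MvPolynomial (Fin (N + 1)) ℂ)
    (hF : ∀ i, ∃ e, (F i).IsHomogeneous e) (Z : Set (MvPolynomial (Fin (N + 1)) ℂ))
    (hZ : ∀ G ∈ Z, ∃ e, G.IsHomogeneous e)
    (hT : TorusMapsIn (Ideal.span (Set.range F)) (Ideal.span Z))
    (P : Fin (N + 1) → Polynomial ℂ) (hP : IsGmCurve F 1 P) (t : ℂ) (ht : t ≠ 0)
    (G : MvPolynomial (Fin (N + 1)) ℂ) (hG : G ∈ Z) : eval (fun j => (P j).eval t) G = 0 := by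
  have hne : ∀ z : ℂ, (fun j => (P j).eval (Complex.exp (1 * z))) ≠ 0 := by
    intro z h
    obtain ⟨j, hj⟩ := hP.ne _ (Complex.exp_ne_zero (1 * z))
    exact hj (congrFun h j)
  obtain ⟨f, hf⟩ : ∃ f : ℂ → ℙ ℂ (Fin (N + 1) → ℂ), f = fun z =>
      Projectivization.mk ℂ (fun j => (P j).eval (Complex.exp (1 * z))) (hne z) := ⟨_, rfl⟩
  have hrep : ∀ z, Rep (f z) (fun j => (P j).eval (Complex.exp (1 * z))) := fun z =>
    ⟨hne z, by rw [hf]⟩
  have hL := (Pool.Agent.Results.MP_45e720_ag.LinearCurvesAndTori.result _ _).1 hT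
  have hmem : ∀ j, (fun z : ℂ => (P j).eval (Complex.exp (1 * z))) ∈
      Algebra.adjoin ℂ {fun z : ℂ => Complex.exp (1 * z)} := by
    intro j
    have h1 : (fun z : ℂ => (P j).eval (Complex.exp (1 * z))) =
        Polynomial.aeval (fun z : ℂ => Complex.exp (1 * z)) (P j) := by
      funext z
      have h2 := Polynomial.aeval_algHom_apply (Pi.evalAlgHom ℂ (fun _ : ℂ => ℂ) z)
        (fun z : ℂ => Complex.exp (1 * z)) (P j)
      rw [Pi.evalAlgHom_apply, Pi.evalAlgHom_apply] at h2
      rw [← h2, Polynomial.coe_aeval_eq_eval]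
    rw [h1]
    exact Polynomial.aeval_mem_adjoin_singleton _ _
  have htr := Pool.Agent.TH143.EL.trOne_exp 1
  have hhol : HolMap f := fun a => ⟨fun j z => (P j).eval (Complex.exp (1 * z)), fun j => by
    have h1 : Differentiable ℂ (fun z : ℂ => (P j).eval (Complex.exp (1 * z))) :=
      (P j).differentiable.comp (Complex.differentiable_exp.comp (differentiable_id.const_mul 1))
    exact h1.analyticAt a, Eventually.of_forall hrep⟩
  have h1 := hL _ htr f hhol ⟨fun j z => (P j).eval (Complex.exp (1 * z)),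
    fun j => htr.mero _ (hmem j), fun j => Pool.Agent.TH143.EL.linB_of_mem htr (hmem j),
    Eventually.of_forall hrep⟩ (by
    intro z G' hG' _
    have h2 : Ideal.span (Set.range F) ≤ RingHom.ker (eval (f z).rep) := by
      rw [Ideal.span_le]
      rintro _ ⟨i, rfl⟩
      rw [SetLike.mem_coe, RingHom.mem_ker]
      obtain ⟨e, he⟩ := hF i
      exact (eval_rep (hrep z) he).2 ((hP.mem _ (Complex.exp_ne_zero (1 * z))).1 i)
    exact h2 hG') (by
    obtain ⟨s, t', hs, ht', j, k, hjk⟩ := hP.nonconst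
    refine ⟨Complex.log s, Complex.log t', fun heq => hjk ?_⟩
    have h3 := hrep (Complex.log s)
    have h4 := hrep (Complex.log t')
    rw [one_mul, Complex.exp_log hs] at h3
    rw [one_mul, Complex.exp_log ht'] at h4
    rw [heq] at h3
    have h5 := ((Pool.Agent.TH143.EL.rep_iff h3).1 h4).2 j k
    exact h5) (Complex.log t)
  obtain ⟨e, he⟩ := hZ G hG
  have h2 := h1 G (Ideal.subset_span hG) ⟨e, he⟩
  have h3 := (eval_rep (hrep (Complex.log t)) he).1 h2
  rwa [one_mul, Complex.exp_log ht] at h3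

/-- There are constants `A r` depending only on `d` and `r` such that the following holds. Let `X`
be the projective variety `F = 0`, given by forms of degree at most `d`, and `Z` a closed set, given
by forms, such that all nonconstant holomorphic maps from one-dimensional complex tori to `X` have
their image in `Z` (no such maps if `Z = {1}`, the equations of the empty set). Then:

(1) For `M ≥ (d + 2) ^ (2 (r + 1))` all nonconstant entire curves in `X` whose homogeneous
coordinates are near infinity sums of `r` terms `ρ e h ^ M` lie in `Z`, and all holomorphic maps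
from the punctured disc to `X` whose coordinates are near the puncture sums of `r` terms
`ρ e h ^ M` extend to the disc or lie in `Z`.

(2) For `M ≥ 2 (d + 2) ^ (2 (r + 1))`, all curves, of genus `g`, all finite sets `S` of points and
all maps `x` to `X`, not into `Z`, whose coordinates are sums of `r` terms `u_j ρ_(j,a)`, where the
orders of `u_j` outside `S` are multiples of `M`, have
`deg x ≤ A r (max (2 g - 2 + #S, 0) + ∑ deg ρ_(j,a))`. -/
theorem result (d : ℕ) : ∃ A : ℕ → ℕ, ∀ {N : ℕ} {ι : Type} (F : ι → MvPolynomial (Fin (N + 1)) ℂ)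
    (_ : ∀ i, ∃ e ≤ d, (F i).IsHomogeneous e) (Z : Set (MvPolynomial (Fin (N + 1)) ℂ))
    (_ : ∀ G ∈ Z, ∃ e, G.IsHomogeneous e)
    (_ : TorusMapsIn (Ideal.span (Set.range F)) (Ideal.span Z)),
    (∀ r M : ℕ, (d + 2) ^ (2 * (r + 1)) ≤ M →
      (∀ f, PowerLine F r M f → ∀ z, ∀ G ∈ Z, eval (f z) G = 0) ∧
      ∀ f, PowerDisc F r M f → Extends f ∨
        ∀ w : ℂ, w ≠ 0 → ‖w‖ < 1 → ∀ G ∈ Z, eval (f w) G = 0) ∧
    ∀ r M : ℕ, 2 * (d + 2) ^ (2 * (r + 1)) ≤ M →
      ∀ (K : Type) [Field K] [Algebra ℂ K] [IsFF ℂ K] (S : Finset (Place ℂ K)) (u : Fin r → K)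
        (ρ : Fin r → Fin (N + 1) → K) (x : Fin (N + 1) → K), PowerMap F M S u ρ x →
        (∃ G ∈ Z, aeval x G ≠ 0) →
        pht ℂ x ≤ A r * (max (canDeg ℂ K + S.card) 0 + ∑ j, ∑ a, hgt ℂ (ρ j a)) := by
  obtain ⟨A, hA⟩ := Pool.Agent.Results.MP_6f117a_ag.DegreesOfPowerSums.result d
  refine ⟨A, ?_⟩
  intro N ι F hF Z hZ hT
  have hF' : ∀ i, ∃ e, (F i).IsHomogeneous e := fun i => by
    obtain ⟨e, -, he⟩ := hF i
    exact ⟨e, he⟩
  have hgm := gm_in_of_tori F hF' Z hZ hT
  have h1 := (Pool.Agent.Results.MP_b9fedf_ag.SumsOfPowers.result F hF 1 (Nat.zero_le d)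
    (isHomogeneous_one _ _)).2.2.1 Z hZ
  have h01 := h1.out 0 1
  have h02 := h1.out 0 2
  refine ⟨fun r M hM => ⟨fun f hf z G hG => ?_, fun f hf => ?_⟩, ?_⟩
  · refine h01.1 hgm r M hM f ⟨hf.an, hf.ne, hf.eqs, Or.inr fun z => ?_, hf.power,
      hf.nonconst⟩ z G hG
    rw [map_one]
    exact one_ne_zero
  · by_cases hext : Extends f
    · exact Or.inl hext
    · refine Or.inr (h02.1 hgm r M hM f ⟨hf.an, hf.ne, hf.eqs, ?_, ?_, hf.power, hext⟩)
      · refine ⟨1 / 2, by norm_num, by norm_num, ?_⟩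
        rw [map_one]
        exact one_ne_zero
      · refine ⟨fun _ => 1, fun _ => 1, ?_, ?_, ?_, ?_⟩
        · exact Eventually.of_forall fun _ => analyticAt_const
        · exact Eventually.of_forall fun _ => one_ne_zero
        · exact Eventually.of_forall fun _ => analyticAt_const
        · exact Eventually.of_forall fun w => by simp
  · intro r M hM K _ _ _ S u ρ x hx hxZ
    refine ((hA F hF 1 ⟨0, Nat.zero_le d, isHomogeneous_one _ _⟩).2.1 Z hZ).1 hgm r M hM K S u ρ x
      ⟨hx.ne, hx.power, hx.coord, hx.nonzero, hx.mem, ?_, fun P _ => ?_⟩ hxZ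
    · rw [map_one]
      exact one_ne_zero
    · rw [map_one, P.ord_one]
      exact dvd_zero _

end Pool.Agent.Results.MP_45e720_ag.PowerSumTori
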