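import Pool.Agent.R871.SG.UniD

/-!
MP_45e720_ag, Q1: algebraic and holomorphic maps from punctured elliptic curves, and from the members of
other closed families of affine curves, to projective varieties.
-/

set_option autoImplicit false

namespace Pool.Agent.Results.MP_45e720_ag.PuncturedTori

open Pool.Agent.R871.SG MvPolynomial

/-- Let `X ⊂ ℙˢ⁻¹` be the projective variety defined by the homogeneous polynomials `F`, over the complex
numbers. For all `d`, `m` let `T d m` be a closed set (in the space of coefficients) of plane affine
curves `B = {(x, y) | y ^ d + a₁(x) y ^ (d - 1) + ⋯ + a_d(x) = 0}`, with polynomials `a_i` of degree at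
most `m`; for instance the set of all cubics `y² = x³ + a x + b`, that is, punctured elliptic curves and
their degenerations. There is a function `φ` with `φ r / log r → ∞` for `r → ∞` such that for all closed
subsets `Z = {G = 0}` (`G` homogeneous of positive degrees; the coordinates if `Z` is empty) and all `d`,
`m` the following are equivalent.

(1) For all `B` in `T d m`, all nonconstant algebraic maps `B → X` (given by homogeneous coordinates
which are polynomials in `x` and `y`) have their images in `Z`.

(2) For all `B` in `T d m`, all nonconstant holomorphic maps `B → X`, given by homogeneous coordinates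
`∑ j, y ^ j • f x j`, `0 ≤ j < d`, with an entire function `f` such that `log ‖f x‖ ≤ φ r` for all `x`
with `‖x‖ ≤ r`, for arbitrarily large `r`, have their images in `Z`. -/
theorem result {s : ℕ} {ι : Type} (F : ι → MvPolynomial (Fin s) ℂ)
    (T : ∀ d m : ℕ, Set (Fin d → Fin (m + 1) → ℂ)) (hT : ∀ d m, IsClosed (T d m)) :
    ∃ φ : ℝ → ℝ, Grows φ ∧ ∀ (κ : Type) (G : κ → MvPolynomial (Fin s) ℂ) (d m : ℕ),
      (∀ c ∈ T d m, ∀ P : Fin d → Fin s → Polynomial ℂ, OnPlane F c (pe P) →
        NonConstPlane c (pe P) → InZ G c (pe P)) ↔
      ∀ c ∈ T d m, ∀ f : ℂ → Fin d → Fin s → ℂ, Differentiable ℂ f → Slow φ f → OnPlane F c f →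
        NonConstPlane c f → InZ G c f :=
  fam_iff F T hT

end Pool.Agent.Results.MP_45e720_ag.PuncturedTori
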